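import Pool.Agent.H40.ISHS.Defs

/-!
The sites below the interface.
-/

namespace Pool.ISHS

/-- the sites below the interface: in the box the sites with an even number of horizontal
plaquettes of the interface vertically under them, outside of the box the sites with non-positive
third coordinate -/
def below (N : ℕ) (A : Finset (Fin 3 → ℤ)) : Set (Fin 3 → ℤ) :=
  {x | (x ∈ Vb N ∧ Even (Set.ncard {z : Fin 3 → ℤ | plaq z up ⊆ Gamma N A ∧
    (∀ j, j ≠ up → z j = x j) ∧ z up < x up})) ∨ (x ∉ Vb N ∧ x up ≤ 0)}

end Pool.ISHS
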