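import Pool.Agent.H40.ISHS.Defs

/-!
The zero temperature shape.
-/

namespace Pool.ISHS

/-- the zero temperature shape: the horizontal square at height `b / 8` and the parts of the
vertical faces of `[-1, 1]^3` at heights from `0` to `b / 8` -/
def shape (b : ℝ) : Set (Fin 3 → ℝ) :=
  {y | y ∈ Qc ∧ (y up = b / 8 ∨ (0 ≤ y up ∧ y up ≤ b / 8 ∧ ∃ i, i ≠ up ∧ |y i| = 1))}

end Pool.ISHS
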