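import Pool.Agent.H40.ISHS.Below

/-!
The volume between the interface and a region, and the boundary surface of a region.
-/

namespace Pool.ISHS

open MeasureTheory

/-- Lebesgue measure -/
noncomputable def vol (S : Set (Fin 3 → ℝ)) : ENNReal := volume S

/-- the region of `[-1, 1]^3` below the rescaled interface -/
def region (N : ℕ) (A : Finset (Fin 3 → ℤ)) : Set (Fin 3 → ℝ) :=
  {y | y ∈ Qc ∧ (fun i => round ((N : ℝ) * y i)) ∈ below N A}

/-- the volume between the rescaled interface and the boundary of the region `K` -/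
noncomputable def vdist (N : ℕ) (A : Finset (Fin 3 → ℤ)) (K : Set (Fin 3 → ℝ)) : ENNReal :=
  vol {y | y ∈ Qc ∧ ¬ (y ∈ region N A ↔ y ∈ K)}

/-- the set `K` in `[-1, 1]^3`, extended by the lower half space outside of `[-1, 1]^3` -/
def extend (K : Set (Fin 3 → ℝ)) : Set (Fin 3 → ℝ) :=
  {y | (y ∈ Qc ∧ y ∈ K) ∨ (y ∉ Qc ∧ y up ≤ 0)}

/-- the boundary surface of the region `K` of `[-1, 1]^3` -/
def surface (K : Set (Fin 3 → ℝ)) : Set (Fin 3 → ℝ) := {y | y ∈ Qc ∧ ∀ r : ℝ, 0 < r →
  0 < vol (ball y r ∩ extend K) ∧ 0 < vol (ball y r \ extend K)}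

end Pool.ISHS
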