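import Pool.Agent.H40.ISHS.Dens
import Pool.Agent.H40.ISHS.Vol
import Pool.Agent.H40.ISHS.Shape
import Pool.Agent.H40.ISH.Final
import Pool.Agent.H40.ISH.All2

/-!
The short definitions and the definitions of the project ISH.
-/

set_option autoImplicit false

namespace Pool.ISHS

open MeasureTheory Filter Topology
open scoped Classical Pointwise

theorem Vb_eq (N : ℕ) : Vb N = ISH.Vb N := by
  ext x
  rw [ISH.mem_Vb]
  simp only [Vb, Fintype.mem_piFinset, Finset.mem_Icc, abs_le]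

theorem nb_eq (x : Fin 3 → ℤ) (i : Fin 3) : nb x i = x + ISH.ev i := by
  funext j
  simp only [nb, ISH.ev, Pi.add_apply, Pi.single_apply]
  split_ifs <;> simp

theorem up_eq : up = 2 := rfl

theorem spin_eq (N : ℕ) (A : Finset (Fin 3 → ℤ)) (x : Fin 3 → ℤ) :
    spin N A x = (ISH.spin N A x : ℝ) := by
  simp only [spin, cas, ISH.spin, Vb_eq, up_eq]
  split_ifs <;> simp

theorem energy_eq (N : ℕ) (A : Finset (Fin 3 → ℤ)) : energy N A = (ISH.energy N A : ℝ) := by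
  simp only [energy, ISH.energy, ISH.BV, Int.cast_neg, Int.cast_sum]
  rw [Finset.sum_filter, Finset.sum_product]
  congr 1
  have h : Vb (N + 1) = ISH.Qb 0 (N + 1) := Vb_eq (N + 1)
  rw [h]
  refine Finset.sum_congr rfl fun x _ => Finset.sum_congr rfl fun i _ => ?_
  simp only [cas, ISH.lo, ISH.hi, Vb_eq, nb_eq, spin_eq]
  split_ifs <;> simp

theorem magn_eq (N : ℕ) (A : Finset (Fin 3 → ℤ)) : magn N A = (ISH.magn N A : ℝ) := by
  simp only [magn, ISH.magn, Int.cast_sum, Vb_eq, spin_eq]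

theorem gsum_eq (β : ℝ) (N : ℕ) (m : ℤ) (S : Finset (Fin 3 → ℤ) → Prop) :
    gsum β N m S = ISH.gsum β N m S := by
  simp only [gsum, ISH.gsum, Finset.sum_filter, Vb_eq, cas, magn_eq, energy_eq, Int.cast_inj]

theorem prob_eq (β : ℝ) (N : ℕ) (m : ℤ) (S : Finset (Fin 3 → ℤ) → Prop) :
    prob β N m S = ISH.prob β N m S := by
  simp only [prob, ISH.prob, gsum_eq]

theorem near_eq (N : ℕ) (t m : ℝ) (h : IsNearest N t m) :
    ∃ k : ℤ, m = k ∧ ISH.IsNearest N t k := by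
  obtain ⟨⟨A, hA, hm⟩, h2⟩ := h
  rw [magn_eq] at hm
  refine ⟨ISH.magn N A, hm.symm, ⟨A, by rw [← Vb_eq]; exact hA, rfl⟩, fun B hB => ?_⟩
  rw [hm, ← magn_eq]
  exact h2 B (by rw [Vb_eq]; exact hB)

/-! ### geometry -/

/-- the identity, as a homeomorphism -/
noncomputable def eh : ISH.E3 ≃ₜ (Fin 3 → ℝ) := (EuclideanSpace.equiv (Fin 3) ℝ).toHomeomorph

theorem eh_apply (y : ISH.E3) (i : Fin 3) : eh y i = y i := rfl

theorem eh_symm (y : Fin 3 → ℝ) (i : Fin 3) : eh.symm y i = y i := rfl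

theorem plaq_eq (x : Fin 3 → ℤ) (i : Fin 3) (y : Fin 3 → ℝ) :
    y ∈ plaq x i ↔ eh.symm y ∈ ISH.plaq (x, i) := by
  simp only [plaq, cube, nb, ISH.plaq, Set.mem_inter_iff, Set.mem_setOf_eq, eh_symm]
  constructor
  · rintro ⟨h1, h2⟩
    refine ⟨?_, fun j _ => h1 j⟩
    have h3 := h1 i
    have h4 := h2 i
    simp only [if_true, Int.cast_add, Int.cast_one] at h4
    rw [abs_le] at h3 h4
    linarith [h3.1, h3.2, h4.1, h4.2]
  · rintro ⟨h1, h2⟩
    constructor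
    · intro j
      by_cases hj : j = i
      · subst hj
        rw [h1, abs_le]
        constructor <;> linarith
      · exact h2 j hj
    · intro j
      by_cases hj : j = i
      · subst hj
        simp only [if_true, Int.cast_add, Int.cast_one]
        rw [h1, abs_le]
        constructor <;> linarith
      · simp only [if_neg hj]
        exact h2 j hj

theorem Vbar_eq (N : ℕ) (x : Fin 3 → ℤ) : x ∈ Vbar N ↔ x ∈ ISH.Vbar N := by
  simp only [Vbar, ISH.Vbar, Set.mem_setOf_eq, Vb_eq, nb_eq]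
  constructor
  · rintro (h | ⟨z, hz, i, h | h⟩)
    · exact Or.inl h
    · refine Or.inr ⟨i, Or.inr ?_⟩
      rw [h, add_sub_cancel_right]
      exact hz
    · refine Or.inr ⟨i, Or.inl ?_⟩
      rw [← h]
      exact hz
  · rintro (h | ⟨i, h | h⟩)
    · exact Or.inl h
    · exact Or.inr ⟨_, h, i, Or.inr rfl⟩
    · exact Or.inr ⟨_, h, i, Or.inl (sub_add_cancel _ _).symm⟩

theorem contours_eq (N : ℕ) (A : Finset (Fin 3 → ℤ)) :
    eh '' (ISH.contours N A) = contours N A := by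
  ext y
  rw [Homeomorph.image_eq_preimage_symm, Set.mem_preimage]
  simp only [contours, ISH.contours, Set.mem_setOf_eq, plaq_eq, Vbar_eq, spin_eq, nb_eq, ne_eq,
    Int.cast_inj]
  constructor
  · rintro ⟨⟨x, i⟩, h⟩
    exact ⟨x, i, h⟩
  · rintro ⟨x, i, h⟩
    exact ⟨(x, i), h⟩

theorem p0_eq (N : ℕ) : eh (ISH.p0 N) = p0 N := rfl

theorem Gamma_eq (N : ℕ) (A : Finset (Fin 3 → ℤ)) : eh '' (ISH.Gamma N A) = Gamma N A := by
  unfold ISH.Gamma Gamma
  by_cases h : ISH.p0 N ∈ ISH.contours N A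
  · rw [eh.image_connectedComponentIn h, contours_eq, p0_eq]
  · rw [connectedComponentIn_eq_empty h, connectedComponentIn_eq_empty, Set.image_empty]
    rw [← contours_eq, ← p0_eq]
    rintro ⟨z, hz, hzz⟩
    rw [eh.injective hzz] at hz
    exact h hz

theorem mem_Gamma (N : ℕ) (A : Finset (Fin 3 → ℤ)) (y : Fin 3 → ℝ) :
    y ∈ Gamma N A ↔ eh.symm y ∈ ISH.Gamma N A := by
  rw [← Gamma_eq, Homeomorph.image_eq_preimage_symm, Set.mem_preimage]

theorem plaq_sub (N : ℕ) (A : Finset (Fin 3 → ℤ)) (x : Fin 3 → ℤ) (i : Fin 3) :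
    plaq x i ⊆ Gamma N A ↔ ISH.plaq (x, i) ⊆ ISH.Gamma N A := by
  constructor
  · intro h y hy
    have h1 : eh y ∈ plaq x i := by
      rw [plaq_eq, Homeomorph.symm_apply_apply]
      exact hy
    have h2 := h h1
    rw [mem_Gamma, Homeomorph.symm_apply_apply] at h2
    exact h2
  · intro h y hy
    rw [mem_Gamma]
    rw [plaq_eq] at hy
    exact h hy

theorem below_eq (N : ℕ) (A : Finset (Fin 3 → ℤ)) : below N A = ISH.below N A := by
  ext x
  simp only [below, ISH.below, Set.mem_setOf_eq, Vb_eq, plaq_sub, up_eq]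
  have h1 : {b : ISH.Bond | ISH.plaq b ⊆ ISH.Gamma N A ∧ b.2 = 2 ∧ b.1 0 = x 0 ∧ b.1 1 = x 1 ∧
      b.1 2 < x 2} = (fun z : Fin 3 → ℤ => ((z, 2) : ISH.Bond)) '' {z : Fin 3 → ℤ |
      ISH.plaq (z, 2) ⊆ ISH.Gamma N A ∧ (∀ j, j ≠ 2 → z j = x j) ∧ z 2 < x 2} := by
    ext ⟨z, i⟩
    simp only [Set.mem_setOf_eq, Set.mem_image, Prod.mk.injEq]
    constructor
    · rintro ⟨h1, h2, h3, h4, h5⟩
      subst h2
      refine ⟨z, ⟨h1, ?_, h5⟩, rfl, rfl⟩
      intro j hj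
      fin_cases j
      · exact h3
      · exact h4
      · exact absurd rfl hj
    · rintro ⟨w, ⟨h1, h2, h3⟩, rfl, rfl⟩
      exact ⟨h1, rfl, h2 0 (by decide), h2 1 (by decide), h3⟩
  have h2 : Set.ncard {b : ISH.Bond | ISH.plaq b ⊆ ISH.Gamma N A ∧ b.2 = 2 ∧ b.1 0 = x 0 ∧
      b.1 1 = x 1 ∧ b.1 2 < x 2} = Set.ncard {z : Fin 3 → ℤ |
      ISH.plaq (z, 2) ⊆ ISH.Gamma N A ∧ (∀ j, j ≠ 2 → z j = x j) ∧ z 2 < x 2} := by
    rw [h1]
    apply Set.ncard_image_of_injective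
    intro a b hab
    exact congrArg Prod.fst hab
  rw [h2]

theorem cnt_eq (D : Set (Fin 3 → ℤ)) (x : Fin 3 → ℤ) (r : ℕ) : cnt D x r = ISH.cnt D x r := by
  unfold cnt ISH.cnt
  rw [← Set.ncard_coe_finset]
  congr 1
  ext z
  simp only [Set.mem_setOf_eq, Finset.coe_filter, ISH.mem_Qb]
  exact and_comm

theorem Dense_eq (δ : ℝ) (R₀ N : ℕ) (A : Finset (Fin 3 → ℤ)) :
    Dense δ R₀ N A ↔ ISH.Dense δ R₀ N A := by
  simp only [Dense, ISH.Dense, plaq_sub, below_eq, cnt_eq, nb_eq]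
  constructor
  · rintro h ⟨x, i⟩ hb z hz
    exact h x i hb z hz
  · intro h x i hb z hz
    exact h (x, i) hb z hz

theorem Qc_eq (y : Fin 3 → ℝ) : y ∈ Qc ↔ eh.symm y ∈ ISH.Qc := Iff.rfl

theorem region_eq (N : ℕ) (A : Finset (Fin 3 → ℤ)) (y : Fin 3 → ℝ) :
    y ∈ region N A ↔ eh.symm y ∈ ISH.region N A := by
  simp only [region, ISH.region, Set.mem_setOf_eq, below_eq, Qc_eq, eh_symm]

theorem vol_eq (S : Set (Fin 3 → ℝ)) : vol S = volume (eh ⁻¹' S) := by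
  unfold vol
  exact ((EuclideanSpace.volume_preserving_symm_measurableEquiv_toLp
    (Fin 3)).measure_preimage_equiv S).symm

theorem vdist_eq (N : ℕ) (A : Finset (Fin 3 → ℤ)) (K : Set (Fin 3 → ℝ)) :
    vdist N A K = ISH.vdist N A (eh ⁻¹' K) := by
  unfold vdist ISH.vdist
  rw [vol_eq]
  congr 1
  ext y
  simp only [Set.mem_preimage, Set.mem_setOf_eq, region_eq, Qc_eq, Homeomorph.symm_apply_apply]

theorem extend_eq (K : Set (Fin 3 → ℝ)) (y : ISH.E3) :
    eh y ∈ extend K ↔ y ∈ ISH.extend (eh ⁻¹' K) := Iff.rfl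

theorem ball_iff (y z : Fin 3 → ℝ) (r : ℝ) (hr : 0 ≤ r) :
    z ∈ ball y r ↔ dist (eh.symm z) (eh.symm y) ≤ r := by
  rw [EuclideanSpace.dist_eq, Real.sqrt_le_left hr]
  simp only [ball, Set.mem_setOf_eq, Real.dist_eq, sq_abs, eh_symm]

theorem surface_eq (K : Set (Fin 3 → ℝ)) (y : Fin 3 → ℝ) :
    y ∈ surface K ↔ eh.symm y ∈ ISH.surface (eh ⁻¹' K) := by
  simp only [surface, ISH.surface, Set.mem_setOf_eq, Qc_eq, vol_eq]
  refine and_congr_right fun _ => ⟨fun h r hr => ?_, fun h r hr => ?_⟩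
  · obtain ⟨h1, h2⟩ := h (r / 2) (by positivity)
    refine ⟨h1.trans_le (measure_mono ?_), h2.trans_le (measure_mono ?_)⟩
    · rintro z ⟨hz1, hz2⟩
      refine ⟨?_, hz2⟩
      rw [ball_iff _ _ _ (by positivity), Homeomorph.symm_apply_apply] at hz1
      rw [Metric.mem_ball]
      linarith
    · rintro z ⟨hz1, hz2⟩
      refine ⟨?_, hz2⟩
      rw [ball_iff _ _ _ (by positivity), Homeomorph.symm_apply_apply] at hz1
      rw [Metric.mem_ball]
      linarith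
  · obtain ⟨h1, h2⟩ := h r hr
    refine ⟨h1.trans_le (measure_mono ?_), h2.trans_le (measure_mono ?_)⟩
    · rintro z ⟨hz1, hz2⟩
      refine ⟨?_, hz2⟩
      rw [ball_iff _ _ _ hr.le, Homeomorph.symm_apply_apply]
      exact (Metric.mem_ball.1 hz1).le
    · rintro z ⟨hz1, hz2⟩
      refine ⟨?_, hz2⟩
      rw [ball_iff _ _ _ hr.le, Homeomorph.symm_apply_apply]
      exact (Metric.mem_ball.1 hz1).le

theorem shape_eq (b : ℝ) (y : Fin 3 → ℝ) : y ∈ shape b ↔ eh.symm y ∈ ISH.shape b := by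
  simp only [shape, ISH.shape, Set.mem_setOf_eq, Qc_eq, up_eq, eh_symm]
  have h : (∃ i : Fin 3, i ≠ 2 ∧ |y i| = 1) ↔ (|y 0| = 1 ∨ |y 1| = 1) := by
    constructor
    · rintro ⟨i, hi, h⟩
      fin_cases i
      · exact Or.inl h
      · exact Or.inr h
      · exact absurd rfl hi
    · rintro (h | h)
      · exact ⟨0, by decide, h⟩
      · exact ⟨1, by decide, h⟩
  rw [h]

end Pool.ISHS
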