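import Mathlib

/-!
The three-dimensional Ising model in the box `[-N, N]^3` with Dobrushin boundary conditions and
fixed magnetisation, and its interface (short definitions; points of space are functions
`Fin 3 → ℝ`, sites are functions `Fin 3 → ℤ`, a configuration is given by the set `A` of the sites
of the box with spin `+1`).
-/

namespace Pool.ISHS

open MeasureTheory Filter Topology
open scoped Classical

/-- `a` if `p` holds, else `b` -/
noncomputable def cas (p : Prop) (a b : ℝ) : ℝ := if p then a else b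

/-- the vertical direction (the third coordinate) -/
def up : Fin 3 := Fin.last 2

/-- the neighbour `x + e_i` of the site `x` -/
def nb (x : Fin 3 → ℤ) (i : Fin 3) : Fin 3 → ℤ := fun j => if j = i then x j + 1 else x j

/-- the box `[-N, N]^3` -/
noncomputable def Vb (N : ℕ) : Finset (Fin 3 → ℤ) := Fintype.piFinset (fun _ => Finset.Icc (-(N : ℤ)) N)

/-- the spin at the site `x`: in the box `+1` at the sites of `A` and `-1` at the other sites;
outside of the box `+1` at the sites with non-positive third coordinate, `-1` at the others -/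
noncomputable def spin (N : ℕ) (A : Finset (Fin 3 → ℤ)) (x : Fin 3 → ℤ) : ℝ :=
  cas (x ∈ Vb N) (cas (x ∈ A) 1 (-1)) (cas (x up ≤ 0) 1 (-1))

/-- the energy: minus the sum of the products of the spins over all bonds with an end in the
box -/
noncomputable def energy (N : ℕ) (A : Finset (Fin 3 → ℤ)) : ℝ :=
  - ∑ x ∈ Vb (N + 1), ∑ i : Fin 3,
    cas (x ∈ Vb N ∨ nb x i ∈ Vb N) (spin N A x * spin N A (nb x i)) 0

/-- the magnetisation in the box -/
noncomputable def magn (N : ℕ) (A : Finset (Fin 3 → ℤ)) : ℝ := ∑ x ∈ Vb N, spin N A x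

/-- the sum of the Gibbs weights of the configurations with magnetisation `m` and property `S` -/
noncomputable def gsum (β : ℝ) (N : ℕ) (m : ℝ) (S : Finset (Fin 3 → ℤ) → Prop) : ℝ :=
  ∑ A ∈ (Vb N).powerset, cas (magn N A = m ∧ S A) (Real.exp (-(β * energy N A))) 0

/-- the probability of the property `S` for the Gibbs measure conditioned on the magnetisation
being `m` -/
noncomputable def prob (β : ℝ) (N : ℕ) (m : ℝ) (S : Finset (Fin 3 → ℤ) → Prop) : ℝ :=
  gsum β N m S / gsum β N m (fun _ => True)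

/-- `m` is an attainable value of the magnetisation which is nearest to `t` -/
def IsNearest (N : ℕ) (t m : ℝ) : Prop := (∃ A ⊆ Vb N, magn N A = m) ∧
  ∀ A ⊆ Vb N, |m - t| ≤ |magn N A - t|

/-- the probability of the property `S N` tends to `0` as `N` tends to infinity -/
def Rare (β : ℝ) (m : ℕ → ℝ) (S : ℕ → Finset (Fin 3 → ℤ) → Prop) : Prop :=
  Tendsto (fun N => prob β N (m N) (S N)) atTop (𝓝 0)

/-! ### the interface -/

/-- the closed unit cube with centre `x` -/
def cube (x : Fin 3 → ℤ) : Set (Fin 3 → ℝ) := {y | ∀ j, |y j - (x j : ℝ)| ≤ 1 / 2}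

/-- the closed plaquette dual to the bond between `x` and `x + e_i`: the common face of the two
unit cubes -/
def plaq (x : Fin 3 → ℤ) (i : Fin 3) : Set (Fin 3 → ℝ) := cube x ∩ cube (nb x i)

/-- the sites of the box and the sites adjacent to it -/
def Vbar (N : ℕ) : Set (Fin 3 → ℤ) := {x | x ∈ Vb N ∨ ∃ z ∈ Vb N, ∃ i, x = nb z i ∨ z = nb x i}

/-- the union of the plaquettes dual to the bonds whose ends carry opposite spins -/
def contours (N : ℕ) (A : Finset (Fin 3 → ℤ)) : Set (Fin 3 → ℝ) :=
  {y | ∃ x i, x ∈ Vbar N ∧ nb x i ∈ Vbar N ∧ spin N A x ≠ spin N A (nb x i) ∧ y ∈ plaq x i}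

/-- the centre of a plaquette forced by the change of the boundary condition: the one between
`(N + 1, 0, 0)` and `(N + 1, 0, 1)` -/
noncomputable def p0 (N : ℕ) : Fin 3 → ℝ := ![(N : ℝ) + 1, 0, 1 / 2]

/-- the interface -/
def Gamma (N : ℕ) (A : Finset (Fin 3 → ℤ)) : Set (Fin 3 → ℝ) :=
  connectedComponentIn (contours N A) (p0 N)

/-- the rescaled interface `Gamma / N` -/
def scaled (N : ℕ) (A : Finset (Fin 3 → ℤ)) : Set (Fin 3 → ℝ) :=
  {y | (fun i => (N : ℝ) * y i) ∈ Gamma N A}

/-! ### limits -/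

/-- the cube `[-1, 1]^3` -/
def Qc : Set (Fin 3 → ℝ) := {y | ∀ i, |y i| ≤ 1}

/-- the closed Euclidean ball with centre `y` and radius `r` -/
def ball (y : Fin 3 → ℝ) (r : ℝ) : Set (Fin 3 → ℝ) := {z | ∑ i, (z i - y i) ^ 2 ≤ r ^ 2}

/-- the Hausdorff distance of the compact sets `S` and `T` is at most `ε` -/
def Close (ε : ℝ) (S T : Set (Fin 3 → ℝ)) : Prop :=
  (∀ y ∈ S, ∃ z ∈ T, z ∈ ball y ε) ∧ ∀ z ∈ T, ∃ y ∈ S, y ∈ ball z ε

end Pool.ISHS
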