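import Pool.Agent.H40.ISHS.Below

/-!
The density property.
-/

namespace Pool.ISHS

/-- the number of sites of the cube with centre `x` and half side `r` in `D` -/
noncomputable def cnt (D : Set (Fin 3 → ℤ)) (x : Fin 3 → ℤ) (r : ℕ) : ℕ :=
  Set.ncard {z : Fin 3 → ℤ | z ∈ D ∧ ∀ j, |z j - x j| ≤ r}

/-- each of the two sides of the interface has density at least `δ` in all cubes of half side
`R ≥ R₀` around the ends of the bonds dual to the plaquettes of the interface -/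
def Dense (δ : ℝ) (R₀ N : ℕ) (A : Finset (Fin 3 → ℤ)) : Prop := ∀ x i, plaq x i ⊆ Gamma N A →
  ∀ z : Fin 3 → ℤ, (z = x ∨ z = nb x i) → ∀ R : ℕ, R₀ ≤ R →
    δ * (R : ℝ) ^ 3 ≤ (cnt (below N A) z R : ℝ) ∧ δ * (R : ℝ) ^ 3 ≤ (cnt (below N A)ᶜ z R : ℝ)

end Pool.ISHS
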