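import Pool.Agent.H40.ISHS.Conv

/-!
The three theorems of the project ISH with the short definitions.
-/

set_option autoImplicit false

namespace Pool.ISHS

open MeasureTheory Filter Topology
open scoped Classical Pointwise

theorem prob_mono (β : ℝ) (N : ℕ) (m : ℤ) (S₁ S₂ : Finset ISH.Site → Prop)
    (h : ∀ A, S₁ A → S₂ A) : ISH.prob β N m S₁ ≤ ISH.prob β N m S₂ := by
  unfold ISH.prob
  refine div_le_div_of_nonneg_right ?_ ?_
  · unfold ISH.gsum
    refine Finset.sum_le_sum_of_subset_of_nonneg ?_ (fun A _ _ => (Real.exp_pos _).le)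
    intro A hA
    rw [Finset.mem_filter] at hA ⊢
    exact ⟨hA.1, hA.2.1, h A hA.2.2⟩
  · exact Finset.sum_nonneg fun A _ => (Real.exp_pos _).le

theorem scaled_eq (N : ℕ) (hN : 1 ≤ N) (A : Finset (Fin 3 → ℤ)) (y : Fin 3 → ℝ) :
    y ∈ scaled N A ↔ eh.symm y ∈ (N : ℝ)⁻¹ • ISH.Gamma N A := by
  have h0 : (N : ℝ) ≠ 0 := by
    have : (0 : ℝ) < N := by exact_mod_cast hN
    exact this.ne'
  rw [Set.mem_inv_smul_set_iff₀ h0]
  unfold scaled
  rw [Set.mem_setOf_eq, mem_Gamma]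
  exact Iff.rfl

theorem contours_compact (N : ℕ) (A : Finset (Fin 3 → ℤ)) : IsCompact (ISH.contours N A) := by
  rw [ISH.top_contours]
  exact ((ISH.top_finite N).subset fun b hb => hb.2.1).isCompact_biUnion fun b _ =>
    (ISH.plc.1 b).1

theorem Gamma_nonempty (N : ℕ) (hN : 1 ≤ N) (A : Finset (Fin 3 → ℤ)) :
    (ISH.Gamma N A).Nonempty := by
  refine ⟨ISH.p0 N, mem_connectedComponentIn ?_⟩
  rw [ISH.top_contours]
  exact Set.mem_biUnion (ISH.top_rt N A hN) (ISH.top_p0 N)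

theorem close_of (N : ℕ) (hN : 1 ≤ N) (A : Finset (Fin 3 → ℤ)) (S : Set (Fin 3 → ℝ))
    (S' : Set ISH.E3) (hS : ∀ y, y ∈ S ↔ eh.symm y ∈ S') (hne : S'.Nonempty)
    (hb : Bornology.IsBounded S') (ε : ℝ) (hε : 0 < ε)
    (h : Metric.hausdorffDist ((N : ℝ)⁻¹ • ISH.Gamma N A) S' < ε) :
    Close ε (scaled N A) S := by
  have hfin : Metric.hausdorffEDist ((N : ℝ)⁻¹ • ISH.Gamma N A) S' ≠ ⊤ := by
    apply Metric.hausdorffEDist_ne_top_of_nonempty_of_bounded _ hne _ hb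
    · exact (Gamma_nonempty N hN A).smul_set
    · exact ((contours_compact N A).smul ((N : ℝ)⁻¹)).isBounded.subset
        (Set.smul_set_mono (connectedComponentIn_subset _ _))
  constructor
  · intro y hy
    rw [scaled_eq N hN] at hy
    obtain ⟨z, hz, hd⟩ := Metric.exists_dist_lt_of_hausdorffDist_lt hy h hfin
    refine ⟨eh z, ?_, ?_⟩
    · rw [hS, Homeomorph.symm_apply_apply]
      exact hz
    · rw [ball_iff _ _ _ hε.le, Homeomorph.symm_apply_apply, dist_comm]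
      exact hd.le
  · intro z hz
    rw [hS] at hz
    obtain ⟨y, hy, hd⟩ := Metric.exists_dist_lt_of_hausdorffDist_lt' hz h hfin
    refine ⟨eh y, ?_, ?_⟩
    · rw [scaled_eq N hN, Homeomorph.symm_apply_apply]
      exact hy
    · rw [ball_iff _ _ _ hε.le, Homeomorph.symm_apply_apply]
      exact hd.le

theorem rare_close (β : ℝ) (k : ℕ → ℤ) (S : Set (Fin 3 → ℝ)) (S' : Set ISH.E3)
    (hS : ∀ y, y ∈ S ↔ eh.symm y ∈ S') (hne : S'.Nonempty) (hb : Bornology.IsBounded S')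
    (ε : ℝ) (hε : 0 < ε)
    (h : Tendsto (fun N => ISH.prob β N (k N)
      (fun A => ε / 2 < Metric.hausdorffDist ((N : ℝ)⁻¹ • ISH.Gamma N A) S')) atTop (𝓝 0)) :
    Tendsto (fun N => ISH.prob β N (k N) (fun A => ¬ Close ε (scaled N A) S)) atTop (𝓝 0) := by
  refine tendsto_of_tendsto_of_tendsto_of_le_of_le' tendsto_const_nhds h
    (Eventually.of_forall fun N => ISH.t2_prob_nonneg ISH.lit _ _ _ _) ?_
  filter_upwards [eventually_ge_atTop 1] with N hN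
  refine prob_mono β N (k N) _ _ fun A hA => ?_
  by_contra hcon
  apply hA
  exact close_of N hN A S S' hS hne hb ε hε (by linarith)

theorem rare_iff (β : ℝ) (m : ℕ → ℝ) (k : ℕ → ℤ) (hk : ∀ N, m N = k N)
    (S : ℕ → Finset (Fin 3 → ℤ) → Prop) :
    Rare β m S ↔ Tendsto (fun N => ISH.prob β N (k N) (S N)) atTop (𝓝 0) := by
  unfold Rare
  have : (fun N => prob β N (m N) (S N)) = fun N => ISH.prob β N (k N) (S N) := by
    funext N
    rw [hk, prob_eq]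
  rw [this]

theorem volume_to_hausdorff : ∃ β₀ : ℝ, ∀ β ≥ β₀, ∀ b : ℝ, 0 ≤ b → b ≤ 1 → ∀ m : ℕ → ℝ,
    (∀ N, IsNearest N (b * (N : ℝ) ^ 3) (m N)) → ∀ K : Set (Fin 3 → ℝ), MeasurableSet K →
    (∀ η : ENNReal, 0 < η → Rare β m (fun N A => η < vdist N A K)) →
    (IsCompact (surface K) ∧ surface K ⊆ Qc ∧
      ∀ y ∈ Qc, y up = 0 → (∃ i, i ≠ up ∧ |y i| = 1) → y ∈ surface K) ∧
    ∀ ε : ℝ, 0 < ε → Rare β m (fun N A => ¬ Close ε (scaled N A) (surface K)) := by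
  obtain ⟨β₀, hβ₀⟩ := ISH.t_t2
  refine ⟨β₀, fun β hβ b hb0 hb1 m hm K hK hv => ?_⟩
  choose k hk1 hk2 using fun N => near_eq N _ _ (hm N)
  have hK' : MeasurableSet (eh ⁻¹' K) := hK.preimage eh.continuous.measurable
  obtain ⟨hc, hsq⟩ := ISH.sur (eh ⁻¹' K) hK'
  have hne : (ISH.surface (eh ⁻¹' K)).Nonempty := by
    refine ⟨eh.symm ![1, 0, 0], hsq _ ?_ ?_ (Or.inl ?_)⟩
    · intro i
      rw [eh_symm]
      fin_cases i <;> simp
    · rw [eh_symm]
      simp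
    · rw [eh_symm]
      simp
  refine ⟨⟨?_, fun y hy => hy.1, ?_⟩, fun ε hε => ?_⟩
  · have h1 : surface K = eh '' (ISH.surface (eh ⁻¹' K)) := by
      ext y
      rw [surface_eq, Homeomorph.image_eq_preimage_symm, Set.mem_preimage]
    rw [h1]
    exact hc.image eh.continuous
  · rintro y hy h0 ⟨i, hi, h1⟩
    rw [surface_eq]
    refine hsq _ hy h0 ?_
    rw [up_eq] at hi
    fin_cases i
    · exact Or.inl h1
    · exact Or.inr h1
    · exact absurd rfl hi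
  · rw [rare_iff β m k hk1]
    refine rare_close β k _ _ (surface_eq K) hne hc.isBounded ε hε ?_
    refine hβ₀ β hβ b hb0 hb1 k hk2 _ hK' (fun η hη => ?_) (ε / 2) (by positivity)
    have h1 := hv η hη
    rw [rare_iff β m k hk1] at h1
    simpa only [vdist_eq] using h1

theorem low_temperature_shape : ∀ ε : ℝ, 0 < ε → ∃ β₀ : ℝ, ∀ β ≥ β₀, ∀ b : ℝ, 0 ≤ b → b ≤ 1 →
    ∀ m : ℕ → ℝ, (∀ N, IsNearest N (b * (N : ℝ) ^ 3) (m N)) →
    Rare β m (fun N A => ¬ Close ε (scaled N A) (shape b)) := by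
  intro ε hε
  obtain ⟨β₀, hβ₀⟩ := ISH.t_t4 (ε / 2) (by positivity)
  refine ⟨β₀, fun β hβ b hb0 hb1 m hm => ?_⟩
  choose k hk1 hk2 using fun N => near_eq N _ _ (hm N)
  rw [rare_iff β m k hk1]
  refine rare_close β k _ _ (shape_eq b) ?_ ?_ ε hε (hβ₀ β hβ b hb0 hb1 k hk2)
  · refine ⟨eh.symm ![0, 0, b / 8], ?_, Or.inl ?_⟩
    · intro i
      rw [eh_symm]
      fin_cases i
      · simp
      · simp
      · show |b / 8| ≤ 1
        rw [abs_le]
        constructor <;> linarith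
    · rw [eh_symm]
      rfl
  · exact ISH.sur_Qc.isBounded.subset fun y hy => hy.1

theorem interface_density : ∃ β₀ δ : ℝ, 0 < δ ∧ ∀ β ≥ β₀, ∀ b : ℝ, 0 ≤ b → b ≤ 1 →
    ∀ m : ℕ → ℝ, (∀ N, IsNearest N (b * (N : ℝ) ^ 3) (m N)) →
    Rare β m (fun N A => ¬ Dense δ ((Nat.log 2 N + 1) ^ 6) N A) := by
  obtain ⟨β₀, δ, hδ, hβ₀⟩ := ISH.t_t1
  refine ⟨β₀, δ, hδ, fun β hβ b hb0 hb1 m hm => ?_⟩
  choose k hk1 hk2 using fun N => near_eq N _ _ (hm N)
  rw [rare_iff β m k hk1]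
  have h1 := (tendsto_const_nhds (x := (1 : ℝ))).sub (hβ₀ β hβ b hb0 hb1 k hk2)
  rw [sub_self] at h1
  refine h1.congr' ?_
  filter_upwards [eventually_ge_atTop 1] with N hN
  have hne := (ISH.nea N b (k N) hN hb0 hb1 (hk2 N)).2
  rw [← ISH.t2_prob_not ISH.lit β N (k N) hne]
  simp only [Dense_eq]

end Pool.ISHS
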